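import Pool.Agent.Q31.GLV.Stm

/-! JOB GLV-T5A of project GLV (helper31). -/

set_option autoImplicit false

namespace Pool.Agent.Q252.GLV

open Pool.Agent.Q31.GLV Module Submodule

theorem t_T5A : S_T5A := by
  rintro F V _ _ _ hV ⟨μ, hμ0, hμ1⟩ H hH U hU hNT
  have hμ : μ - 1 ≠ 0 := sub_ne_zero.2 hμ1
  obtain ⟨k, hkH, hk1, hk2⟩ := hNT (LinearEquiv.smulOfNeZero F U μ hμ0)
  have hkU : ∀ u : U, k (u : V) = μ • (u : V) := by
    intro u
    rw [hk1 u]
    rfl
  let γ : V →ₗ[F] U := LinearMap.codRestrict U ((k : V →ₗ[F] V) - LinearMap.id)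
    (fun v => by simpa using hk2 v)
  have hγ : ∀ v, ((γ v : U) : V) = k v - v := fun v => rfl
  have hγU : ∀ u : U, γ (u : V) = (μ - 1) • u := by
    intro u
    apply Subtype.ext
    rw [hγ, hkU]
    simp [sub_smul]
  refine ⟨LinearMap.ker γ, ?_, ?_⟩
  · constructor
    · rw [Submodule.disjoint_def]
      intro x hx hx2
      rw [LinearMap.mem_ker] at hx2
      have h1 := hγU ⟨x, hx⟩
      have h2 : (μ - 1) • (⟨x, hx⟩ : U) = 0 := by
        rw [← h1]
        exact hx2
      rcases smul_eq_zero.1 h2 with h3 | h3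
      · exact absurd h3 hμ
      · exact congrArg Subtype.val h3
    · rw [codisjoint_iff, eq_top_iff]
      intro v _
      rw [Submodule.mem_sup]
      refine ⟨((μ - 1)⁻¹ • γ v : U), Subtype.property _, v - ((μ - 1)⁻¹ • γ v : U), ?_, ?_⟩
      · rw [LinearMap.mem_ker, map_sub, hγU, smul_smul, mul_inv_cancel₀ hμ, one_smul, sub_self]
      · abel
  · intro C₁ hC₁ hr1 hr2
    have hdisj : ∀ c ∈ C₁, c ∈ U → c = 0 := by
      intro c hc hcU
      have h0 := hC₁ hc
      rw [LinearMap.mem_ker] at h0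
      have h1 := hγU ⟨c, hcU⟩
      have h2 : (μ - 1) • (⟨c, hcU⟩ : U) = 0 := by
        rw [← h1]
        exact h0
      rcases smul_eq_zero.1 h2 with h3 | h3
      · exact absurd h3 hμ
      · exact congrArg Subtype.val h3
    obtain ⟨p⟩ := nonempty_linearEquiv_of_rank_eq (R := F) (M := C₁) (M₁ := U)
      (hr1.trans hU.1.symm)
    let f : C₁ →ₗ[F] V ⧸ U := U.mkQ ∘ₗ C₁.subtype
    have hf : LinearMap.ker f = ⊥ := by
      rw [LinearMap.ker_eq_bot']
      intro c hc
      have h1 : (c : V) ∈ U := by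
        have h2 : U.mkQ (c : V) = 0 := hc
        rwa [Submodule.mkQ_apply, Submodule.Quotient.mk_eq_zero] at h2
      exact Subtype.ext (hdisj _ c.2 h1)
    obtain ⟨g', hg'⟩ := LinearMap.exists_leftInverse_of_injective f hf
    let P : V →ₗ[F] U := (p : C₁ →ₗ[F] U) ∘ₗ g' ∘ₗ U.mkQ
    have hPU : ∀ u : U, P (u : V) = 0 := by
      intro u
      have h1 : U.mkQ (u : V) = 0 := by
        rw [Submodule.mkQ_apply, Submodule.Quotient.mk_eq_zero]
        exact u.2
      change p (g' (U.mkQ (u : V))) = 0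
      rw [h1, map_zero, map_zero]
    have hPC : ∀ c : C₁, P (c : V) = p c := by
      intro c
      have h1 : g' (f c) = c := by
        have h2 := congrArg (fun φ : C₁ →ₗ[F] C₁ => φ c) hg'
        exact h2
      change p (g' (f c)) = p c
      rw [h1]
    let Q : (U ⊔ C₁ : Submodule F V) →ₗ[F] (U ⊔ C₁ : Submodule F V) :=
      (Submodule.inclusion (le_sup_left : U ≤ U ⊔ C₁)) ∘ₗ P ∘ₗ (U ⊔ C₁).subtype
    have hQ : ∀ w, ((Q w : (U ⊔ C₁ : Submodule F V)) : V) = (P (w : V) : V) := fun w => rfl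
    have hQQ : ∀ w, Q (Q w) = 0 := by
      intro w
      apply Subtype.ext
      rw [hQ, hQ, hPU]
      rfl
    let g : (U ⊔ C₁ : Submodule F V) ≃ₗ[F] (U ⊔ C₁ : Submodule F V) :=
      LinearEquiv.ofLinear (LinearMap.id + Q) (LinearMap.id - Q)
        (by
          ext w
          simp [hQQ])
        (by
          ext w
          simp [hQQ])
    have hg : ∀ w, ((g w : (U ⊔ C₁ : Submodule F V)) : V) = (w : V) + (P (w : V) : V) :=
      fun w => rfl
    have hLW : Large (U ⊔ C₁) := by
      refine ⟨le_antisymm (Submodule.rank_le _) ?_, hr2⟩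
      rw [← hU.1]
      exact Submodule.rank_mono le_sup_left
    obtain ⟨h, hhH, hh⟩ := hH (U ⊔ C₁) hLW g
    have hhU : ∀ u : U, h (u : V) = (u : V) := by
      intro u
      have h1 := hh ⟨(u : V), (le_sup_left : U ≤ U ⊔ C₁) u.2⟩
      rw [hg] at h1
      change h (u : V) = (u : V) + (P (u : V) : V) at h1
      rw [h1, hPU]
      simp
    have hhC : ∀ c : C₁, h (c : V) = (c : V) + (p c : V) := by
      intro c
      have h1 := hh ⟨(c : V), (le_sup_right : C₁ ≤ U ⊔ C₁) c.2⟩
      rw [hg] at h1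
      change h (c : V) = (c : V) + (P (c : V) : V) at h1
      rw [h1, hPC]
    refine ⟨γ ∘ₗ ((h : V →ₗ[F] V) - LinearMap.id), ⟨?_, h⁻¹ * k * h * k⁻¹,
      H.mul_mem (H.mul_mem (H.mul_mem (H.inv_mem hhH) hkH) hhH) (H.inv_mem hkH), ?_⟩, ?_⟩
    · intro u
      change γ (h (u : V) - (u : V)) = 0
      rw [hhU, sub_self, map_zero]
    · intro v
      change h⁻¹ (k (h (k⁻¹ v))) = v + (γ (h v - v) : V)
      set w : V := k⁻¹ v with hw
      have hv : v = k w := by
        rw [hw]
        exact (LinearEquiv.apply_symm_apply k v).symm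
      have h1 : k w = w + (γ w : V) := by
        rw [hγ]
        abel
      have h2 : k (h w) = h w + (γ (h w) : V) := by
        rw [hγ]
        abel
      have h3 : h⁻¹ (k (h w)) = w + (γ (h w) : V) := by
        rw [h2]
        have h4 : h w + (γ (h w) : V) = h (w + (γ (h w) : V)) := by
          rw [map_add, hhU]
        rw [h4]
        exact LinearEquiv.symm_apply_apply h _
      rw [h3, hv, h1, map_add, hhU]
      have h5 : h w + (γ w : V) - (w + (γ w : V)) = h w - w := by abel
      rw [h5, map_sub, Submodule.coe_sub]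
      abel
    · intro v hv h0
      have h1 := hhC ⟨v, hv⟩
      change γ (h v - v) = 0 at h0
      have h2 : h v - v = ((p ⟨v, hv⟩ : U) : V) := by
        change h v = v + _ at h1
        rw [h1]
        abel
      rw [h2, hγU] at h0
      rcases smul_eq_zero.1 h0 with h3 | h3
      · exact absurd h3 hμ
      · have h4 : (⟨v, hv⟩ : C₁) = 0 := by
          apply p.injective
          rw [h3, map_zero]
        exact congrArg Subtype.val h4

end Pool.Agent.Q252.GLV
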