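import Pool.Agent.Q31.GLV.Stm

/-! JOB GLV-TA of project GLV (helper31). -/

set_option autoImplicit false

namespace Pool.Agent.Q252.GLV

open Pool.Agent.Q31.GLV Module Submodule

theorem t_TA (hSum : S_SUM) : S_TA := by
  intro F V _ _ _ hV H U hU hNT
  have hadd : ∀ τ τ' : V →ₗ[F] U, InT H U τ → InT H U τ' → InT H U (τ + τ') := by
    rintro τ τ' ⟨h1, t, htH, ht⟩ ⟨h1', t', htH', ht'⟩
    refine ⟨fun u => by rw [LinearMap.add_apply, h1, h1', add_zero], t * t',
      H.mul_mem htH htH', ?_⟩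
    intro v
    change t (t' v) = _
    rw [ht' v, ht, map_add, h1, add_zero, LinearMap.add_apply, Submodule.coe_add]
    abel
  have hconj : ∀ (τ : V →ₗ[F] U) (y : U ≃ₗ[F] U), InT H U τ →
      InT H U ((y : U →ₗ[F] U) ∘ₗ τ) := by
    rintro τ y ⟨h1, t, htH, ht⟩
    obtain ⟨k, hkH, hk1, hk2⟩ := hNT y
    refine ⟨fun u => ?_, k * t * k⁻¹, H.mul_mem (H.mul_mem hkH htH) (H.inv_mem hkH), ?_⟩
    · change y (τ (u : V)) = 0
      rw [h1, map_zero]
    · intro v
      change k (t (k⁻¹ v)) = v + (y (τ v) : V)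
      set w : V := k⁻¹ v with hw
      have hv : v = k w := by
        rw [hw]
        exact (LinearEquiv.apply_symm_apply k v).symm
      have h2 : τ v = τ w := by
        have h3 := h1 ⟨k w - w, hk2 w⟩
        change τ (k w - w) = 0 at h3
        rw [map_sub, sub_eq_zero] at h3
        rw [hv]
        exact h3
      rw [ht, map_add, hk1, h2, hv]
  refine ⟨hadd, ?_⟩
  intro τ e hτ
  have hrU : Cardinal.aleph0 ≤ Module.rank F U := by
    rw [hU.1]
    exact hV
  obtain ⟨a, b, c, d, he⟩ := hSum F U hrU e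
  have h1 : e ∘ₗ τ = (a : U →ₗ[F] U) ∘ₗ τ + (b : U →ₗ[F] U) ∘ₗ τ + (c : U →ₗ[F] U) ∘ₗ τ +
      (d : U →ₗ[F] U) ∘ₗ τ := by
    ext v
    simp only [LinearMap.comp_apply, LinearMap.add_apply, LinearEquiv.coe_coe]
    rw [he]
  rw [h1]
  exact hadd _ _ (hadd _ _ (hadd _ _ (hconj τ a hτ) (hconj τ b hτ)) (hconj τ c hτ))
    (hconj τ d hτ)

end Pool.Agent.Q252.GLV
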